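import Mathlib
import Pool.Agent.H21.SharpDef

namespace Pool.Agent.Results.MP_aa3754_al.StarFails

open Pool.Agent.H21.Sharp

variable {F : Type} [Field F]

def N (x : F × F × F) : F := x.1 ^ 3 + x.1 * x.2.2 ^ 2 - x.2.1 ^ 2 * x.2.2

def Δ : LinearMap.BilinForm F (F × F × F) :=
  LinearMap.mk₂ F (fun x y => x.2.2 * y.2.2) (fun _ _ _ => by simp [add_mul])
    (fun _ _ _ => by simp [mul_assoc]) (fun _ _ _ => by simp [mul_add])
    (fun _ _ _ => by simp [mul_left_comm])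

def shB : (F × F × F) →ₗ[F] (F × F × F) →ₗ[F] (F × F × F) :=
  LinearMap.mk₂ F (fun x y => (x.1 * y.1, -(x.1 * y.2.1), x.2.1 * y.2.1 - x.1 * y.2.2))
    (fun _ _ _ => by ext <;> simp <;> ring) (fun _ _ _ => by ext <;> simp <;> ring)
    (fun _ _ _ => by ext <;> simp <;> ring) (fun _ _ _ => by ext <;> simp <;> ring)

def sh : QuadraticMap F (F × F × F) (F × F × F) := LinearMap.BilinMap.toQuadraticMap shB

theorem sh_apply (x : F × F × F) : sh x = (x.1 * x.1, -(x.1 * x.2.1), x.2.1 * x.2.1 - x.1 * x.2.2) :=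
  rfl
theorem Δ_apply (x y : F × F × F) : Δ x y = x.2.2 * y.2.2 := rfl

theorem result (F : Type) [Field F] (h2 : (2 : F) ≠ 0) (h3 : (3 : F) ≠ 0) :
    ∃ (N : F × F × F → F) (Δ : LinearMap.BilinForm F (F × F × F))
      (sh : QuadraticMap F (F × F × F) (F × F × F)) (c : F × F × F),
      IsGenSharped N Δ sh c ∧ ¬ Star N Δ sh c := by
  have hT : ∀ r : F × F × F, Tr N (1, 0, 0) r = 3 * r.1 := by
    intro r; simp only [Tr, N3, N]; field_simp; simp; ring
  refine ⟨N, Δ, sh, (1, 0, 0), ⟨⟨fun x y => 3 * x.1 * x.1 * y.1 + x.2.2 * x.2.2 * y.1 +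
    2 * x.1 * x.2.2 * y.2.2 - 2 * x.2.1 * x.2.2 * y.2.1 - x.2.1 * x.2.1 * y.2.2, fun y => ?_,
    fun x => ⟨fun a b => by simp; ring, fun a b => by simp; ring⟩, fun x y l => by simp [N]; ring⟩,
    by simp [N], fun r q => mul_comm _ _, fun r => by simp [Δ_apply], fun r q => ?_, fun r => ?_,
    fun r => ?_⟩, fun h => ?_⟩
  · exact ⟨LinearMap.BilinMap.toQuadraticMap (LinearMap.mk₂ F
      (fun x z : F × F × F => 3 * x.1 * z.1 * y.1 + x.2.2 * z.2.2 * y.1 +
        2 * x.1 * z.2.2 * y.2.2 - 2 * x.2.1 * z.2.2 * y.2.1 - x.2.1 * z.2.1 * y.2.2)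
      (fun _ _ _ => by simp; ring) (fun _ _ _ => by simp; ring)
      (fun _ _ _ => by simp; ring) (fun _ _ _ => by simp; ring)), fun x => rfl⟩
  · simp only [Bil, hT, QuadraticMap.polar, sh_apply, Δ_apply, N3, N]
    field_simp; simp; ring
  · simp only [sh_apply, Δ_apply, N]; ext <;> simp <;> ring
  · simp only [hT, QuadraticMap.polar, sh_apply]; ext <;> simp <;> ring
  · have := h (0, 1, 0) (0, 1, 0) (0, 0, 1)
    simp only [hT, QuadraticMap.polar, sh_apply, Δ_apply] at this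
    apply h2; simp at this; linear_combination this

end Pool.Agent.Results.MP_aa3754_al.StarFails
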